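import Pool.Agent.Lib.MP_656a26_gt.Defs
import Pool.Agent.Lib.MP_656a26_gt.Main

/-!
# The free topological group on `[0,1]` is not strongly separable

A topological group `G` is strongly separable if for every topological group `H` all of whose
closed subgroups are separable, all closed subgroups of `G × H` are separable. We show that the
free topological group on the closed unit interval is not strongly separable.

Idea of the proof. Let `s_β` (`β < ω₁`), `s_∞`, `x_{αβ}` (`α ≤ β ≤ ∞`) be reals which together
with `1` are linearly independent over the field generated by `√2`. Let `H` be the subgroup of the
torus `𝕋² × 𝕋^{ω₁}` generated by the elements `d_β = (s_β, √2 s_β, (x_{αβ})_{α ≤ β}, 0)` and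
`d_∞ = (s_∞, 0, (x_{α∞})_α)`. By Kronecker's theorem every uncountable subgroup of `H`, and also
the cyclic subgroup generated by `d_∞ + d_0`, is dense in the torus, so that every closed subgroup
of `H` is countable or equal to the separable group `H`. On the other hand let `ρ : F([0,1]) → ℝ`
be the homomorphism extending the inclusion. The closed subgroup of all `(g, h)` such that the
first two coordinates of `h` are `(ρ g, √2 ρ g)` involves only elements `h` in the group generated
by the `d_β`, `β < ω₁`, and is not separable: the coordinate `α` vanishes on any given countable
subset once `α` is large, but not on `d_α`.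
-/

open TopologicalSpace Pool.Agent.Lib.MP_656a26_gt

namespace Pool.Agent.Results.MP_656a26_gt.NotSSeparable

/-- **The free topological group `F([0,1])` is not strongly separable**: there is a (Hausdorff,
abelian) topological group `H`, all closed subgroups of which are separable, such that
`F([0,1]) × H` has a closed subgroup that is not separable. -/
theorem result :
    ∃ (H : Type) (_ : CommGroup H) (_ : TopologicalSpace H) (_ : IsTopologicalGroup H),
      T2Space H ∧
      (∀ K : Subgroup H, IsClosed (K : Set H) → SeparableSpace K) ∧
      ∃ C : Subgroup (FreeTopGroup (Set.Icc (0 : ℝ) 1) × H),
        IsClosed (C : Set (FreeTopGroup (Set.Icc (0 : ℝ) 1) × H)) ∧ ¬ SeparableSpace C :=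
  main rho continuous_rho rho_surjective

end Pool.Agent.Results.MP_656a26_gt.NotSSeparable
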